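import Mathlib

/-!
# Composite valuations: the coarse value of a polynomial has a maximum (MP_5b9d98_lc, Q1)

Let `v` be a valuation on `K` with a coarsening `w`, such that `w` and the valuation induced by `v`
on the residue field of `w` are extremal and such that the value group of `v` has a least positive
element `v(t)`. Then `y ↦ y / (1 + t y ^ 2)` maps the valuation ring of `w` onto the valuation ring of
`v`, with denominators which are units of the valuation ring of `w`. So the largest value `w(f(a))`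
over the valuation ring of `v` is a largest value of another polynomial over the valuation ring of
`w`.
-/

namespace Pool.Agent.Results.MP_5b9d98_lc.LargestCoarseValue

open MvPolynomial

/-- The field `F` with the valuation `v` whose valuation ring is `A` is extremal: for every
polynomial `f` the values `v(f(a))`, `a ∈ A ^ n`, have a largest element. (`v(x) ≥ v(y)` means
`x = c y` for some `c ∈ A`.) -/
def Extremal {F : Type*} [Field F] (A : Subring F) : Prop :=
  ∀ (n : ℕ) (f : MvPolynomial (Fin n) F), ∃ a : Fin n → F, (∀ i, a i ∈ A) ∧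
    ∀ b : Fin n → F, (∀ i, b i ∈ A) → ∃ c ∈ A, eval a f = c * eval b f

/-- The valuation ring `O_v / m_w` of the valuation induced by `v` on the residue field of the
coarser valuation `w`; `V = O_v`, `W = O_w`. -/
def inducedRing {K : Type*} [Field K] (V W : ValuationSubring K) :
    Subring (IsLocalRing.ResidueField W) :=
  (V.toSubring.comap W.subtype).map (IsLocalRing.residue W)

section

variable {K : Type*} [Field K] {V W : ValuationSubring K}

/-- `v(t)` is the least positive value. -/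
def LeastPositive (V : ValuationSubring K) (t : K) : Prop :=
  t ∈ V ∧ t⁻¹ ∉ V ∧ ∀ x ∈ V, x⁻¹ ∉ V → ∃ c ∈ V, x = c * t

theorem LeastPositive.ne_zero {t : K} (ht : LeastPositive V t) : t ≠ 0 := by
  rintro rfl
  exact ht.2.1 (by rw [inv_zero]; exact V.zero_mem)

theorem unit_one_add {t : K} (ht : LeastPositive V t) {z : K} (hz : z ∈ V) :
    1 + t * z ≠ 0 ∧ (1 + t * z)⁻¹ ∈ V := by
  have ht0 := ht.ne_zero
  refine ⟨fun h => ht.2.1 ?_, ?_⟩
  · have h1 : t⁻¹ = -z := inv_eq_of_mul_eq_one_right (by linear_combination -h)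
    rw [h1]
    exact V.neg_mem _ hz
  · by_contra hcon
    obtain ⟨c, hc, hct⟩ := ht.2.2 (1 + t * z)
      (V.add_mem _ _ V.one_mem (V.mul_mem _ _ ht.1 hz)) hcon
    refine ht.2.1 ?_
    have h1 : t⁻¹ = c - z := inv_eq_of_mul_eq_one_right (by linear_combination -hct)
    rw [h1, sub_eq_add_neg]
    exact V.add_mem _ _ hc (V.neg_mem _ hz)

/-- The denominators are units of `W` and the quotients are in `V`. -/
theorem denom {t : K} (ht : LeastPositive V t) (hVW : V ≤ W) {y : K} (hy : y ∈ W) :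
    1 + t * y ^ 2 ≠ 0 ∧ 1 + t * y ^ 2 ∈ W ∧ (1 + t * y ^ 2)⁻¹ ∈ W ∧ y * (1 + t * y ^ 2)⁻¹ ∈ V := by
  have ht0 := ht.ne_zero
  by_cases hyV : y ∈ V
  · have h2 : y ^ 2 ∈ V := pow_mem hyV 2
    obtain ⟨h3, h4⟩ := unit_one_add ht h2
    exact ⟨h3, hVW (V.add_mem _ _ V.one_mem (V.mul_mem _ _ ht.1 h2)), hVW h4,
      V.mul_mem _ _ hyV h4⟩
  · have hy0 : y ≠ 0 := by
      rintro rfl
      exact hyV V.zero_mem
    have hyi : y⁻¹ ∈ V := (V.mem_or_inv_mem y).resolve_left hyV
    obtain ⟨c, hc, hct⟩ := ht.2.2 y⁻¹ hyi (by rwa [inv_inv])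
    have hcy : c * t * y = 1 := by
      rw [← hct]
      exact inv_mul_cancel₀ hy0
    obtain ⟨h3, h4⟩ := unit_one_add ht (pow_mem hc 2)
    have hD : 1 + t * y ^ 2 = t * y ^ 2 * (1 + t * c ^ 2) := by
      linear_combination -(c * t * y + 1) * hcy
    have hDn : 1 + t * y ^ 2 ≠ 0 := by
      rw [hD]
      exact mul_ne_zero (mul_ne_zero ht0 (pow_ne_zero _ hy0)) h3
    have hDi : (1 + t * y ^ 2)⁻¹ = c ^ 2 * t * (1 + t * c ^ 2)⁻¹ := by
      refine inv_eq_of_mul_eq_one_right ?_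
      rw [hD]
      have h5 : (1 + t * c ^ 2) * (1 + t * c ^ 2)⁻¹ = 1 := mul_inv_cancel₀ h3
      linear_combination (c * t * y) ^ 2 * h5 + (c * t * y + 1) * hcy
    refine ⟨hDn, W.add_mem _ _ W.one_mem (W.mul_mem _ _ (hVW ht.1) (pow_mem hy 2)), ?_, ?_⟩
    · rw [hDi]
      exact hVW (V.mul_mem _ _ (V.mul_mem _ _ (pow_mem hc 2) ht.1) h4)
    · have h6 : y * (1 + t * y ^ 2)⁻¹ = c * (1 + t * c ^ 2)⁻¹ := by
        rw [hDi]
        linear_combination c * (1 + t * c ^ 2)⁻¹ * hcy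
      rw [h6]
      exact V.mul_mem _ _ hc h4

/-- The root in the residue field of `W`, lifted. -/
theorem exists_residue_root {t : K} (ht : LeastPositive V t) (hVW : V ≤ W)
    (hR : Extremal (inducedRing V W)) {a : K} (ha : a ∈ V) :
    ∃ r : W, (r : K) ∈ V ∧ IsLocalRing.residue W
      ((⟨a, hVW ha⟩ : W) * ⟨t, hVW ht.1⟩ * r ^ 2 - r + ⟨a, hVW ha⟩) = 0 := by
  set A : W := ⟨a, hVW ha⟩ with hA
  set T : W := ⟨t, hVW ht.1⟩ with hT
  set ρ := IsLocalRing.residue W with hρ
  have hmem : ∀ x : W, (x : K) ∈ V → ρ x ∈ inducedRing V W := fun x hx => ⟨x, hx, rfl⟩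
  obtain ⟨x, hx, hmax⟩ := hR 1 (C (ρ A * ρ T) * X 0 ^ 2 - X 0 + C (ρ A))
  simp only [eval_add, eval_sub, eval_mul, eval_C, eval_pow, eval_X] at hmax
  obtain ⟨r, hr, hrx⟩ := hx 0
  have hrV : (r : K) ∈ V := hr
  refine ⟨r, hrV, ?_⟩
  -- the Newton step
  have hz : -(2 * a * (r : K)) ∈ V :=
    V.neg_mem _ (V.mul_mem _ _ (V.mul_mem _ _ (by
      have := V.add_mem _ _ V.one_mem V.one_mem
      rwa [one_add_one_eq_two] at this) ha) hrV)
  obtain ⟨hd0, hd1⟩ := unit_one_add ht hz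
  set u : K := -(1 + t * -(2 * a * (r : K)))⁻¹ with hu
  have huV : u ∈ V := V.neg_mem _ hd1
  have hue : (2 * a * t * r - 1) * u = 1 := by
    have h5 : (1 + t * -(2 * a * (r : K))) * (1 + t * -(2 * a * (r : K)))⁻¹ = 1 :=
      mul_inv_cancel₀ hd0
    rw [hu]
    linear_combination h5
  set U : W := ⟨u, hVW huV⟩ with hU
  have hUe : (2 * A * T * r - 1) * U = 1 := by
    apply Subtype.ext
    exact hue
  set p : W := A * T * r ^ 2 - r + A with hp
  have hpV : (p : K) ∈ V := by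
    have h1 : (p : K) = a * t * (r : K) ^ 2 + -(r : K) + a := by
      rw [hp]
      push_cast
      ring
    rw [h1]
    exact V.add_mem _ _ (V.add_mem _ _ (V.mul_mem _ _ (V.mul_mem _ _ ha ht.1) (pow_mem hrV 2))
      (V.neg_mem _ hrV)) ha
  have hy1 : ((r - p * U : W) : K) ∈ V := by
    push_cast
    rw [sub_eq_add_neg]
    exact V.add_mem _ _ hrV (V.neg_mem _ (V.mul_mem _ _ hpV huV))
  obtain ⟨c, hc, hce⟩ := hmax (fun _ => ρ (r - p * U)) (fun _ => hmem _ hy1)
  obtain ⟨c₀, hc₀, rfl⟩ := hc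
  have hc₀V : (c₀ : K) ∈ V := hc₀
  rw [← hrx] at hce
  have hnewton : A * T * (r - p * U) ^ 2 - (r - p * U) + A = A * T * (p * U) ^ 2 := by
    linear_combination (-p) * hUe + (1 : W) * (by rw [hp] : p = A * T * r ^ 2 - r + A).symm
  have h1 : ρ p = ρ c₀ * ρ (A * T * (p * U) ^ 2) := by
    rw [← hnewton]
    simpa only [hp, map_add, map_sub, map_mul, map_pow] using hce
  have h2 : ρ p * (1 - ρ (c₀ * A * T * U ^ 2 * p)) = 0 := by
    have h3 : ρ (A * T * (p * U) ^ 2) = ρ A * ρ T * (ρ p * ρ U) ^ 2 := by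
      simp only [map_mul, map_pow]
    have h4 : ρ (c₀ * A * T * U ^ 2 * p) = ρ c₀ * ρ A * ρ T * ρ U ^ 2 * ρ p := by
      simp only [map_mul, map_pow]
    rw [h3] at h1
    rw [h4]
    linear_combination h1
  rcases mul_eq_zero.mp h2 with h3 | h3
  · exact h3
  · exfalso
    have hz2 : -((c₀ : K) * a * u ^ 2 * p) ∈ V := V.neg_mem _
      (V.mul_mem _ _ (V.mul_mem _ _ (V.mul_mem _ _ hc₀V ha) (pow_mem huV 2)) hpV)
    obtain ⟨he0, he1⟩ := unit_one_add ht hz2
    set E : W := ⟨(1 + t * -((c₀ : K) * a * u ^ 2 * p))⁻¹, hVW he1⟩ with hE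
    have h6 : (1 - c₀ * A * T * U ^ 2 * p) * E = 1 := by
      apply Subtype.ext
      have h5 := mul_inv_cancel₀ he0
      show (1 - (c₀ : K) * a * t * u ^ 2 * (p : K)) * (1 + t * -((c₀ : K) * a * u ^ 2 * p))⁻¹ = 1
      refine Eq.trans ?_ h5
      congr 1
      ring
    have h7 := congrArg ρ h6
    rw [map_mul, map_sub, map_one, h3, zero_mul] at h7
    exact zero_ne_one h7

/-- The map `y ↦ y / (1 + t y ^ 2)` is onto `V`. -/
theorem surj {t : K} (ht : LeastPositive V t) (hVW : V ≤ W) (hW : Extremal W.toSubring)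
    (hR : Extremal (inducedRing V W)) {a : K} (ha : a ∈ V) :
    ∃ y ∈ W, a * (1 + t * y ^ 2) = y := by
  obtain ⟨r, hrV, hr⟩ := exists_residue_root ht hVW hR ha
  obtain ⟨x, hx, hmax⟩ := hW 1 (C (a * t) * X 0 ^ 2 - X 0 + C a)
  simp only [eval_add, eval_sub, eval_mul, eval_C, eval_pow, eval_X] at hmax
  have hx0 : x 0 ∈ W := hx 0
  refine ⟨x 0, hx0, ?_⟩
  set A : W := ⟨a, hVW ha⟩ with hA
  set T : W := ⟨t, hVW ht.1⟩ with hT
  set Y : W := ⟨x 0, hx0⟩ with hY
  set ρ := IsLocalRing.residue W with hρ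
  by_contra hcon
  have hp0 : a * t * x 0 ^ 2 - x 0 + a ≠ 0 := fun h => hcon (by linear_combination h)
  obtain ⟨c, hc, hce⟩ := hmax (fun _ => (r : K)) (fun _ => r.2)
  have hcW : c ∈ W := hc
  have hPW : ρ (A * T * Y ^ 2 - Y + A) = 0 := by
    have h1 : A * T * Y ^ 2 - Y + A = ⟨c, hcW⟩ * (A * T * r ^ 2 - r + A) := by
      apply Subtype.ext
      push_cast
      exact hce
    rw [h1, map_mul, hr, mul_zero]
  set P : W := A * T * Y ^ 2 - Y + A with hP
  have hPne : P ≠ 0 := by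
    intro h
    apply hp0
    have := congrArg (fun w : W => (w : K)) h
    simpa [hP] using this
  -- the derivative is a unit
  have hder : IsUnit (2 * A * T * Y - 1) := by
    rw [← IsLocalRing.residue_ne_zero_iff_isUnit]
    intro h0
    have h1 : (2 * A * T * Y - 1) ^ 2 = (1 - 4 * A ^ 2 * T) + 4 * A * T * P := by
      rw [hP]
      ring
    have h2 := congrArg ρ h1
    rw [map_pow, h0, map_add, map_mul _ _ P, hPW, mul_zero, add_zero] at h2
    have h4 : (4 : K) ∈ V := by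
      have h5 := V.add_mem _ _ V.one_mem V.one_mem
      have h6 : (4 : K) = (1 + 1) + (1 + 1) := by norm_num
      rw [h6]
      exact V.add_mem _ _ h5 h5
    have hz : -(4 * a ^ 2) ∈ V := V.neg_mem _ (V.mul_mem _ _ h4 (pow_mem ha 2))
    obtain ⟨he0, he1⟩ := unit_one_add ht hz
    set E : W := ⟨(1 + t * -(4 * a ^ 2))⁻¹, hVW he1⟩ with hE
    have h6 : (1 - 4 * A ^ 2 * T) * E = 1 := by
      apply Subtype.ext
      have h5 := mul_inv_cancel₀ he0
      show (1 - 4 * a ^ 2 * t) * (1 + t * -(4 * a ^ 2))⁻¹ = 1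
      refine Eq.trans ?_ h5
      congr 1
      ring
    have h7 := congrArg ρ h6
    rw [map_mul, ← h2, map_one, zero_pow (by norm_num), zero_mul] at h7
    exact zero_ne_one h7
  obtain ⟨E, hE⟩ := hder.exists_right_inv
  obtain ⟨d, hd, hde⟩ := hmax (fun _ => ((Y - P * E : W) : K)) (fun _ => (Y - P * E).2)
  have hdW : d ∈ W := hd
  have hnewton : A * T * (Y - P * E) ^ 2 - (Y - P * E) + A = A * T * (P * E) ^ 2 := by
    linear_combination (-P) * hE + (1 : W) * (by rw [hP] : P = A * T * Y ^ 2 - Y + A).symm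
  have h1 : P = ⟨d, hdW⟩ * (A * T * (P * E) ^ 2) := by
    rw [← hnewton]
    apply Subtype.ext
    push_cast
    exact hde
  have h2 : P * (1 - ⟨d, hdW⟩ * A * T * E ^ 2 * P) = 0 := by
    linear_combination h1
  rcases mul_eq_zero.mp h2 with h3 | h3
  · exact hPne h3
  · have h4 := congrArg ρ h3
    rw [map_sub, map_mul _ _ P, hPW, mul_zero, sub_zero, map_one, map_zero] at h4
    exact one_ne_zero h4

/-! ### Clearing denominators -/

/-- The numerator of `f(y_1 / (1 + t y_1 ^ 2), …)`. -/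
noncomputable def numer {n : ℕ} (t : K) (f : MvPolynomial (Fin n) K) (N : ℕ) :
    MvPolynomial (Fin n) K :=
  ∑ m ∈ f.support, C (coeff m f) * ∏ i, (X i ^ m i * (1 + C t * X i ^ 2) ^ (N - m i))

theorem eval_numer {n : ℕ} (t : K) (f : MvPolynomial (Fin n) K) {N : ℕ}
    (hN : ∀ m ∈ f.support, ∀ i, m i ≤ N) (y : Fin n → K) (hy : ∀ i, 1 + t * y i ^ 2 ≠ 0) :
    eval y (numer t f N) =
      (∏ i, (1 + t * y i ^ 2) ^ N) * eval (fun i => y i * (1 + t * y i ^ 2)⁻¹) f := by
  unfold numer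
  rw [MvPolynomial.eval_eq' (fun i => y i * (1 + t * y i ^ 2)⁻¹) f, Finset.mul_sum, map_sum]
  refine Finset.sum_congr rfl fun m hm => ?_
  simp only [eval_mul, eval_C, eval_prod, eval_pow, eval_add, eval_X, map_one]
  rw [mul_left_comm, ← Finset.prod_mul_distrib]
  congr 1
  refine Finset.prod_congr rfl fun i _ => ?_
  rw [mul_pow, inv_pow]
  have h1 : (1 + t * y i ^ 2) ^ N = (1 + t * y i ^ 2) ^ (N - m i) * (1 + t * y i ^ 2) ^ m i := by
    rw [← pow_add, Nat.sub_add_cancel (hN m hm i)]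
  rw [h1]
  have h2 := pow_ne_zero (m i) (hy i)
  field_simp

end

/-- **The coarse value has a maximum.** Let `V = O_v ⊆ W = O_w` be valuation rings of a field such
that `w` and the valuation induced by `v` on the residue field of `w` are extremal, and such that
there is a least positive value `v(t)`. Then for every polynomial `f` the values `w(f(a))`, `a` with
entries in `O_v`, have a largest element. -/
theorem result {K : Type*} [Field K] (V W : ValuationSubring K) (hVW : V ≤ W)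
    (hW : Extremal W.toSubring) (hR : Extremal (inducedRing V W)) (t : K)
    (ht : LeastPositive V t) (n : ℕ) (f : MvPolynomial (Fin n) K) :
    ∃ a : Fin n → K, (∀ i, a i ∈ V) ∧ ∀ b : Fin n → K, (∀ i, b i ∈ V) →
      ∃ c ∈ W, eval a f = c * eval b f := by
  obtain ⟨N, hN⟩ : ∃ N : ℕ, ∀ m ∈ f.support, ∀ i, m i ≤ N := by
    refine ⟨∑ m ∈ f.support, ∑ i, m i, fun m hm i => ?_⟩
    refine (Finset.single_le_sum (f := fun i => m i) (fun _ _ => Nat.zero_le _)
      (Finset.mem_univ i)).trans ?_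
    exact Finset.single_le_sum (f := fun m : Fin n →₀ ℕ => ∑ i, m i)
      (fun _ _ => Nat.zero_le _) hm
  obtain ⟨y, hy, hmax⟩ := hW n (numer t f N)
  have hyW : ∀ i, y i ∈ W := hy
  refine ⟨fun i => y i * (1 + t * y i ^ 2)⁻¹, fun i => (denom ht hVW (hyW i)).2.2.2,
    fun b hb => ?_⟩
  choose z hzW hz using fun i => surj ht hVW hW hR (hb i)
  obtain ⟨c, hc, hce⟩ := hmax z hzW
  have hcW : c ∈ W := hc
  have hzb : (fun i => z i * (1 + t * z i ^ 2)⁻¹) = b := by
    funext i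
    rw [← div_eq_mul_inv, div_eq_iff (denom ht hVW (hzW i)).1]
    exact (hz i).symm
  rw [eval_numer t f hN y (fun i => (denom ht hVW (hyW i)).1),
    eval_numer t f hN z (fun i => (denom ht hVW (hzW i)).1), hzb] at hce
  have hDy : (∏ i, (1 + t * y i ^ 2) ^ N) ≠ 0 :=
    Finset.prod_ne_zero_iff.mpr fun i _ => pow_ne_zero _ (denom ht hVW (hyW i)).1
  refine ⟨(∏ i, ((1 + t * y i ^ 2)⁻¹) ^ N) * c * ∏ i, (1 + t * z i ^ 2) ^ N, ?_, ?_⟩
  · refine W.mul_mem _ _ (W.mul_mem _ _ ?_ hcW) ?_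
    · exact prod_mem fun i _ => pow_mem (denom ht hVW (hyW i)).2.2.1 N
    · exact prod_mem fun i _ => pow_mem (denom ht hVW (hzW i)).2.1 N
  · have h3 : (∏ i, ((1 + t * y i ^ 2)⁻¹) ^ N) * (∏ i, (1 + t * y i ^ 2) ^ N) = 1 := by
      rw [← Finset.prod_mul_distrib]
      refine Finset.prod_eq_one fun i _ => ?_
      rw [← mul_pow, inv_mul_cancel₀ (denom ht hVW (hyW i)).1, one_pow]
    calc eval (fun i => y i * (1 + t * y i ^ 2)⁻¹) f
        = ((∏ i, ((1 + t * y i ^ 2)⁻¹) ^ N) * (∏ i, (1 + t * y i ^ 2) ^ N)) *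
          eval (fun i => y i * (1 + t * y i ^ 2)⁻¹) f := by rw [h3, one_mul]
      _ = (∏ i, ((1 + t * y i ^ 2)⁻¹) ^ N) * ((∏ i, (1 + t * y i ^ 2) ^ N) *
          eval (fun i => y i * (1 + t * y i ^ 2)⁻¹) f) := by rw [mul_assoc]
      _ = _ := by
        rw [hce]
        ring

end Pool.Agent.Results.MP_5b9d98_lc.LargestCoarseValue
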